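import Pool.Agent.Helper57.KE.St2

set_option autoImplicit false

namespace Pool.Agent.Helper62.KE

open Pool.Agent.Helper57.KE

private lemma rho_bd {s p α β γ G t w δ : ℝ} (hs : 0 ≤ s) (hs1 : s ≤ 1) (hp : 0 ≤ p) (hp1 : p ≤ 1)
    (hα : 0 ≤ α) (hβ : 0 ≤ β) (hγ : 0 ≤ γ) (hG : G = α + β + γ) (ht : t = w + δ) (hw : 0 ≤ w)
    (hδ : 0 ≤ δ) :
    0 ≤ α * w ^ 2 + β * δ * w + γ * δ ^ 2 ∧ α * w ^ 2 + β * δ * w + γ * δ ^ 2 ≤ G * t ^ 2 ∧
      -t ≤ p * w - s * δ ∧ p * w - s * δ ≤ t := by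
  have hwt : w ≤ t := by linarith
  have hδt : δ ≤ t := by linarith
  have ht0 : 0 ≤ t := by linarith
  refine ⟨by positivity, ?_, ?_, ?_⟩
  · have h1 : α * w ^ 2 ≤ α * t ^ 2 := by gcongr
    have h2 : β * δ * w ≤ β * t * t := by gcongr
    have h3 : γ * δ ^ 2 ≤ γ * t ^ 2 := by gcongr
    rw [hG]
    linarith
  · have h1 : 0 ≤ p * w := by positivity
    have h2 : s * δ ≤ 1 * δ := by gcongr
    linarith
  · have h1 : p * w ≤ 1 * w := by gcongr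
    have h2 : 0 ≤ s * δ := by positivity
    linarith

private lemma order4 {p a α β γ G t w δ L Q : ℝ} (hp : 0 ≤ p) (hp1 : p ≤ 1)
    (ha : 0 ≤ a) (ha1 : a ≤ 1) (hα : 0 ≤ α) (hβ : 0 ≤ β) (hγ : 0 ≤ γ) (hG : G = α + β + γ)
    (ht : t = w + δ) (hw : 0 ≤ w) (hδ : 0 ≤ δ) (ht1 : t ≤ 1 / 4) (hQ0 : 0 ≤ Q)
    (hQ : Q ≤ G * t ^ 2) (hL : L ≤ t) :
    -((2 * G ^ 2 + 8 * G + 3) * t ^ 4) ≤
      -(3 * α * w ^ 4) - β * δ * w ^ 3 +
        δ * (-(p * w ^ 3) + α * (2 * w ^ 3 - 3 * w ^ 4) + β * δ * (w ^ 2 - w ^ 3)) - Q ^ 2 -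
        δ * (2 * L * Q + Q ^ 2) - 2 * a * w * (p * w ^ 3) -
        2 * a * w * δ * (-(p * w ^ 2) + p * w ^ 3 + Q) := by
  have hwt : w ≤ t := by linarith
  have hδt : δ ≤ t := by linarith
  have ht0 : 0 ≤ t := by linarith
  have hαG : α ≤ G := by linarith
  have hβG : β ≤ G := by linarith
  have hG0 : 0 ≤ G := by linarith
  have hw1 : w ≤ 1 / 4 := by linarith
  have hδ1 : δ ≤ 1 := by linarith
  have m1 : α * w ^ 4 ≤ G * t ^ 4 := by gcongr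
  have m2 : β * δ * w ^ 3 ≤ G * t ^ 4 := by
    calc β * δ * w ^ 3 ≤ G * t * t ^ 3 := by gcongr
      _ = G * t ^ 4 := by ring
  have m3 : δ * (p * w ^ 3) ≤ t ^ 4 := by
    calc δ * (p * w ^ 3) ≤ t * (1 * t ^ 3) := by gcongr
      _ = t ^ 4 := by ring
  have m4 : 0 ≤ δ * (α * (2 * w ^ 3 - 3 * w ^ 4)) := by
    have : 0 ≤ 2 * w ^ 3 - 3 * w ^ 4 := by
      have e : 2 * w ^ 3 - 3 * w ^ 4 = w ^ 3 * (2 - 3 * w) := by ring
      rw [e]
      exact mul_nonneg (by positivity) (by linarith)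
    positivity
  have m5 : 0 ≤ δ * (β * δ * (w ^ 2 - w ^ 3)) := by
    have : 0 ≤ w ^ 2 - w ^ 3 := by
      have e : w ^ 2 - w ^ 3 = w ^ 2 * (1 - w) := by ring
      rw [e]
      exact mul_nonneg (by positivity) (by linarith)
    positivity
  have m6 : Q ^ 2 ≤ G ^ 2 * t ^ 4 := by
    calc Q ^ 2 ≤ (G * t ^ 2) ^ 2 := by gcongr
      _ = G ^ 2 * t ^ 4 := by ring
  have m7 : δ * (L * Q) ≤ G * t ^ 4 := by
    have h1 : L * Q ≤ t * (G * t ^ 2) := by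
      calc L * Q ≤ t * Q := mul_le_mul_of_nonneg_right hL hQ0
        _ ≤ t * (G * t ^ 2) := mul_le_mul_of_nonneg_left hQ ht0
    have h2 : 0 ≤ t * (G * t ^ 2) := by positivity
    calc δ * (L * Q) ≤ δ * (t * (G * t ^ 2)) := mul_le_mul_of_nonneg_left h1 hδ
      _ ≤ t * (t * (G * t ^ 2)) := mul_le_mul_of_nonneg_right hδt h2
      _ = G * t ^ 4 := by ring
  have m8 : δ * Q ^ 2 ≤ G ^ 2 * t ^ 4 := by
    calc δ * Q ^ 2 ≤ 1 * Q ^ 2 := by gcongr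
      _ = Q ^ 2 := one_mul _
      _ ≤ _ := m6
  have m9 : a * w * (p * w ^ 3) ≤ t ^ 4 := by
    calc a * w * (p * w ^ 3) ≤ 1 * t * (1 * t ^ 3) := by gcongr
      _ = t ^ 4 := by ring
  have m10 : 0 ≤ a * w * δ * (p * w ^ 2 - p * w ^ 3) := by
    have : 0 ≤ p * w ^ 2 - p * w ^ 3 := by
      have e : p * w ^ 2 - p * w ^ 3 = p * w ^ 2 * (1 - w) := by ring
      rw [e]
      exact mul_nonneg (by positivity) (by linarith)
    positivity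
  have m11 : a * w * δ * Q ≤ G * t ^ 4 := by
    calc a * w * δ * Q ≤ 1 * t * t * (G * t ^ 2) := by gcongr
      _ = G * t ^ 4 := by ring
  nlinarith [m1, m2, m3, m4, m5, m6, m7, m8, m9, m10, m11]

private lemma third {s p a α β γ w δ : ℝ} (h2a : p = 1 - 2 * a) (hs : 0 ≤ s) (hp : 0 ≤ p)
    (ha : 0 ≤ a) (c1 : 200 + p ^ 2 ≤ 2 * a * α) (c2 : 200 + p * β ≤ 2 * s * α)
    (c3 : 200 + 2 * (p + a) * γ ≤ 2 * s * β) (c4 : 200 + s ^ 2 ≤ 2 * s * γ) (hw : 0 ≤ w)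
    (hδ : 0 ≤ δ) :
    200 * (w ^ 3 + w ^ 2 * δ + w * δ ^ 2 + δ ^ 3) ≤
      (-p + 2 * α) * w ^ 3 + β * δ * w ^ 2 + p * δ * w ^ 2 -
        2 * (p * w - s * δ) * (α * w ^ 2 + β * δ * w + γ * δ ^ 2) - δ * (p * w - s * δ) ^ 2 -
        2 * a * w * (-(p * w ^ 2) + (α * w ^ 2 + β * δ * w + γ * δ ^ 2)) -
        2 * a * w * δ * (p * w - s * δ) := by
  have e : (-p + 2 * α) * w ^ 3 + β * δ * w ^ 2 + p * δ * w ^ 2 -
        2 * (p * w - s * δ) * (α * w ^ 2 + β * δ * w + γ * δ ^ 2) - δ * (p * w - s * δ) ^ 2 -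
        2 * a * w * (-(p * w ^ 2) + (α * w ^ 2 + β * δ * w + γ * δ ^ 2)) -
        2 * a * w * δ * (p * w - s * δ) =
      (2 * a * α - p ^ 2) * w ^ 3 + (2 * s * α - p * β) * (w ^ 2 * δ) +
        (2 * s * β - 2 * (p + a) * γ + 2 * s * (p + a)) * (w * δ ^ 2) +
        (2 * s * γ - s ^ 2) * δ ^ 3 := by
    subst h2a
    ring
  rw [e]
  have k1 : 200 * w ^ 3 ≤ (2 * a * α - p ^ 2) * w ^ 3 := by
    apply mul_le_mul_of_nonneg_right _ (by positivity)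
    linarith
  have k2 : 200 * (w ^ 2 * δ) ≤ (2 * s * α - p * β) * (w ^ 2 * δ) := by
    apply mul_le_mul_of_nonneg_right _ (by positivity)
    linarith
  have k3 : 200 * (w * δ ^ 2) ≤ (2 * s * β - 2 * (p + a) * γ + 2 * s * (p + a)) * (w * δ ^ 2) := by
    apply mul_le_mul_of_nonneg_right _ (by positivity)
    have : 0 ≤ 2 * s * (p + a) := by positivity
    linarith
  have k4 : 200 * δ ^ 3 ≤ (2 * s * γ - s ^ 2) * δ ^ 3 := by
    apply mul_le_mul_of_nonneg_right _ (by positivity)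
    linarith
  linarith

private lemma inv_bd {ρ t : ℝ} (ht0 : 0 ≤ t) (ht1 : t ≤ 1 / 4) (h1 : -(2 * t) ≤ ρ) :
    1 / (1 + ρ) ≤ 1 - ρ + ρ ^ 2 + 16 * t ^ 3 := by
  have hpos : 0 < 1 + ρ := by linarith
  rw [div_le_iff₀ hpos]
  have e : (1 - ρ + ρ ^ 2 + 16 * t ^ 3) * (1 + ρ) = 1 + ρ ^ 3 + 16 * t ^ 3 * (1 + ρ) := by ring
  rw [e]
  have h2 : -(2 * t) ^ 3 ≤ ρ ^ 3 := by
    have h3 : (-(2 * t)) ^ 3 ≤ ρ ^ 3 := (Odd.pow_le_pow (by decide)).2 h1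
    have e2 : (-(2 * t)) ^ 3 = -(2 * t) ^ 3 := by ring
    rwa [e2] at h3
  have h4 : 16 * t ^ 3 * (1 / 2) ≤ 16 * t ^ 3 * (1 + ρ) := by
    apply mul_le_mul_of_nonneg_left _ (by positivity)
    linarith
  nlinarith

private lemma poc3 {s p a α β γ G t w w' δ ρ ρ' : ℝ} (hs : 0 ≤ s) (hs1 : s ≤ 1) (hp : 0 ≤ p)
    (hp1 : p ≤ 1) (ha : 0 ≤ a) (ha1 : a ≤ 1) (h2a : p = 1 - 2 * a) (hps : p * s = a * (1 - s))
    (hα : 0 ≤ α) (hβ : 0 ≤ β) (hγ : 0 ≤ γ)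
    (c1 : 200 + p ^ 2 ≤ 2 * a * α) (c2 : 200 + p * β ≤ 2 * s * α)
    (c3 : 200 + 2 * (p + a) * γ ≤ 2 * s * β) (c4 : 200 + s ^ 2 ≤ 2 * s * γ)
    (hG : G = α + β + γ) (ht : t = w + δ) (hw : 0 < w) (hδ : 0 < δ)
    (hK : (2 * G ^ 2 + 8 * G + 4) * t ≤ 1) (hw' : w' = w / (1 + w))
    (hρ : ρ = p * w - s * δ + α * w ^ 2 + β * δ * w + γ * δ ^ 2)
    (hρ' : ρ' = p * w' - s * δ + α * w' ^ 2 + β * δ * w' + γ * δ ^ 2) :
    δ ^ 2 * (1 - s ^ 2) ≤ (1 + δ) ^ 2 - (1 + δ) * (1 / (1 + ρ)) -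
      (1 + 2 * a * w) * ((1 + δ) * (1 + ρ') - 1) := by
  have hG0 : 0 ≤ G := by rw [hG]; positivity
  have ht0 : 0 < t := by linarith
  have ht1 : t ≤ 1 / 4 := by nlinarith [mul_nonneg hG0 ht0.le, mul_nonneg (sq_nonneg G) ht0.le]
  have hGt : G * t ≤ 1 := by nlinarith [mul_nonneg hG0 ht0.le, mul_nonneg (sq_nonneg G) ht0.le]
  obtain ⟨q1, q2, q3, q4⟩ := rho_bd hs hs1 hp hp1 hα hβ hγ hG ht hw.le hδ.le
  set Q := α * w ^ 2 + β * δ * w + γ * δ ^ 2 with hQ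
  set L := p * w - s * δ with hL
  have hρQ : ρ = L + Q := by rw [hρ, hL, hQ]; ring
  have hρ2 : -(2 * t) ≤ ρ := by rw [hρQ]; linarith
  have hinv := inv_bd ht0.le ht1 hρ2
  have hw'0 : 0 ≤ w' := by rw [hw']; positivity
  have hw'1 : w' ≤ w - w ^ 2 + w ^ 3 := by
    rw [hw', div_le_iff₀ (by positivity)]
    have e : (w - w ^ 2 + w ^ 3) * (1 + w) = w + w ^ 4 := by ring
    rw [e]
    have : 0 ≤ w ^ 4 := by positivity
    linarith
  have hw'2 : w' ≤ w := by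
    rw [hw']
    exact div_le_self hw.le (by linarith)
  have hw'3 : w' ^ 2 ≤ w ^ 2 - 2 * w ^ 3 + 3 * w ^ 4 := by
    rw [hw', div_pow, div_le_iff₀ (by positivity)]
    have e : (w ^ 2 - 2 * w ^ 3 + 3 * w ^ 4) * (1 + w) ^ 2 = w ^ 2 + w ^ 5 * (4 + 3 * w) := by ring
    rw [e]
    have : 0 ≤ w ^ 5 * (4 + 3 * w) := by positivity
    linarith
  set D := p * (w ^ 2 - w ^ 3) + α * (2 * w ^ 3 - 3 * w ^ 4) + β * δ * (w ^ 2 - w ^ 3) with hD
  set U := p * (w - w ^ 2 + w ^ 3) - s * δ + Q with hU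
  have hρD : ρ' ≤ ρ - D := by
    have h1 : p * w' ≤ p * (w - w ^ 2 + w ^ 3) := mul_le_mul_of_nonneg_left hw'1 hp
    have h2 : α * w' ^ 2 ≤ α * (w ^ 2 - 2 * w ^ 3 + 3 * w ^ 4) :=
      mul_le_mul_of_nonneg_left hw'3 hα
    have h3 : β * δ * w' ≤ β * δ * (w - w ^ 2 + w ^ 3) :=
      mul_le_mul_of_nonneg_left hw'1 (by positivity)
    rw [hρ', hρ, hD]
    linarith
  have hρU : ρ' ≤ U := by
    have h1 : p * w' ≤ p * (w - w ^ 2 + w ^ 3) := mul_le_mul_of_nonneg_left hw'1 hp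
    have h2 : α * w' ^ 2 ≤ α * w ^ 2 := by gcongr
    have h3 : β * δ * w' ≤ β * δ * w := mul_le_mul_of_nonneg_left hw'2 (by positivity)
    rw [hρ', hU, hQ]
    linarith
  have b1 : (1 + δ) * (1 / (1 + ρ)) ≤ (1 + δ) * (1 - ρ + ρ ^ 2 + 16 * t ^ 3) :=
    mul_le_mul_of_nonneg_left hinv (by linarith)
  have b2 : (1 + δ) * ρ' ≤ (1 + δ) * (ρ - D) := mul_le_mul_of_nonneg_left hρD (by linarith)
  have b3 : 2 * a * w * ((1 + δ) * ρ') ≤ 2 * a * w * ((1 + δ) * U) := by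
    apply mul_le_mul_of_nonneg_left _ (by positivity)
    exact mul_le_mul_of_nonneg_left hρU (by linarith)
  have b4 := order4 hp hp1 ha ha1 hα hβ hγ hG ht hw.le hδ.le ht1 q1 q2 q4
  have b5 := third h2a hs hp ha c1 c2 c3 c4 hw.le hδ.le
  rw [← hL, ← hQ] at b5
  have b6 : (2 * G ^ 2 + 8 * G + 3) * t ^ 4 ≤ t ^ 3 := by
    have h1 : (2 * G ^ 2 + 8 * G + 3) * t ≤ 1 := by linarith
    calc (2 * G ^ 2 + 8 * G + 3) * t ^ 4 = ((2 * G ^ 2 + 8 * G + 3) * t) * t ^ 3 := by ring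
      _ ≤ 1 * t ^ 3 := mul_le_mul_of_nonneg_right h1 (by positivity)
      _ = t ^ 3 := one_mul _
  have b7 : (1 + δ) * (16 * t ^ 3) ≤ 32 * t ^ 3 := by
    have h1 : (1 + δ) * (16 * t ^ 3) ≤ 2 * (16 * t ^ 3) := by
      apply mul_le_mul_of_nonneg_right _ (by positivity)
      linarith
    linarith
  have b8 : t ^ 3 ≤ 3 * (w ^ 3 + w ^ 2 * δ + w * δ ^ 2 + δ ^ 3) := by
    have e : t ^ 3 = w ^ 3 + 3 * (w ^ 2 * δ) + 3 * (w * δ ^ 2) + δ ^ 3 := by rw [ht]; ring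
    rw [e]
    have h1 : 0 ≤ w ^ 3 := by positivity
    have h2 : 0 ≤ δ ^ 3 := by positivity
    linarith
  have b9 : 0 ≤ w ^ 3 + w ^ 2 * δ + w * δ ^ 2 + δ ^ 3 := by positivity
  have key : s ^ 2 * δ ^ 2 + (1 + δ) * D - (1 + δ) * ρ ^ 2 - 2 * a * w * δ -
      2 * a * w * ((1 + δ) * U) =
      ((-p + 2 * α) * w ^ 3 + β * δ * w ^ 2 + p * δ * w ^ 2 - 2 * L * Q - δ * L ^ 2 -
        2 * a * w * (-(p * w ^ 2) + Q) - 2 * a * w * δ * L) +
      (-(3 * α * w ^ 4) - β * δ * w ^ 3 +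
        δ * (-(p * w ^ 3) + α * (2 * w ^ 3 - 3 * w ^ 4) + β * δ * (w ^ 2 - w ^ 3)) - Q ^ 2 -
        δ * (2 * L * Q + Q ^ 2) - 2 * a * w * (p * w ^ 3) -
        2 * a * w * δ * (-(p * w ^ 2) + p * w ^ 3 + Q)) := by
    have e0 : s ^ 2 * δ ^ 2 + p * w ^ 2 - L ^ 2 - 2 * a * w * δ - 2 * a * w * L = 0 := by
      rw [hL]
      have e1 : s ^ 2 * δ ^ 2 + p * w ^ 2 - (p * w - s * δ) ^ 2 - 2 * a * w * δ -
          2 * a * w * (p * w - s * δ) = p * (1 - p - 2 * a) * w ^ 2 +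
            2 * (p * s - a * (1 - s)) * (w * δ) := by ring
      rw [e1, hps, h2a]
      ring
    have e3 : U = L + (-(p * w ^ 2) + Q) + p * w ^ 3 := by rw [hU, hL]; ring
    rw [hρQ, e3, hD]
    linear_combination e0
  have e5 : (1 + δ) ^ 2 - (1 + δ) * (1 - ρ + ρ ^ 2 + 16 * t ^ 3) -
      ((δ + (1 + δ) * (ρ - D)) + 2 * a * w * δ + 2 * a * w * ((1 + δ) * U)) - δ ^ 2 * (1 - s ^ 2) =
      (s ^ 2 * δ ^ 2 + (1 + δ) * D - (1 + δ) * ρ ^ 2 - 2 * a * w * δ -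
      2 * a * w * ((1 + δ) * U)) - (1 + δ) * (16 * t ^ 3) := by ring
  have e6 : (1 + 2 * a * w) * ((1 + δ) * (1 + ρ') - 1) =
      (δ + (1 + δ) * ρ') + 2 * a * w * δ + 2 * a * w * ((1 + δ) * ρ') := by ring
  rw [e6]
  rw [key] at e5
  linarith

private lemma poc4 {s p α β γ G w δ ρ : ℝ} (hs : 0 < s) (hs1 : s < 1) (hp : 0 ≤ p)
    (hp1 : p ≤ 1) (hα : 0 ≤ α) (hβ : 0 ≤ β) (hγ : 8 ≤ γ) (hG : G = α + β + γ) (hw : 0 < w)
    (hδ : 0 < δ) (hδ2 : δ ≤ 1 / 2) (hδG : 2 * G * δ ≤ s) (hws : 2 * w ≤ s * δ)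
    (hρ : ρ = p * w - s * δ + α * w ^ 2 + β * δ * w + γ * δ ^ 2) (hpos : 0 < 1 + ρ) :
    δ ^ 2 * (1 - s ^ 2) + s * p * δ * w ≤
      (1 + δ) ^ 2 - (1 + δ) * (1 / (1 + ρ)) - ((1 + δ) * (1 + ρ) - 1) := by
  have hγ0 : 0 ≤ γ := by linarith
  have hG0 : 0 ≤ G := by rw [hG]; positivity
  have hsδ : s * δ ≤ δ := by nlinarith
  have hwδ : w ≤ δ := by linarith
  set A := s * δ - p * w with hA
  set e := α * w ^ 2 + β * δ * w + γ * δ ^ 2 with he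
  have hpw : p * w ≤ w := by nlinarith
  have hpw0 : 0 ≤ p * w := by positivity
  have hA1 : s * δ / 2 ≤ A := by rw [hA]; linarith
  have hA2 : A ≤ s * δ := by rw [hA]; linarith
  have he1 : γ * δ ^ 2 ≤ e := by
    rw [he]
    have : 0 ≤ α * w ^ 2 := by positivity
    have : 0 ≤ β * δ * w := by positivity
    linarith
  have he2 : e ≤ G * δ ^ 2 := by
    have h1 : α * w ^ 2 ≤ α * δ ^ 2 := by gcongr
    have h2 : β * δ * w ≤ β * δ * δ := by gcongr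
    rw [he, hG]
    linarith
  have he3 : e ≤ A := by
    have : G * δ ^ 2 ≤ s * δ / 2 := by
      calc G * δ ^ 2 = (2 * G * δ) * δ / 2 := by ring
        _ ≤ s * δ / 2 := by
          have := mul_le_mul_of_nonneg_right hδG hδ.le
          linarith
    linarith
  have he0 : 0 ≤ e := le_trans (by positivity) he1
  have hρA : ρ = -(A - e) := by rw [hρ, hA, he]; ring
  have hA0 : 0 ≤ A := by
    have : 0 < s * δ := by positivity
    linarith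
  have h1 : ρ ^ 2 ≤ s ^ 2 * δ ^ 2 - s * p * δ * w - s * γ * δ ^ 3 / 2 := by
    have k1 : ρ ^ 2 ≤ A ^ 2 - A * e := by
      rw [hρA]
      nlinarith [mul_nonneg he0 (sub_nonneg.2 he3)]
    have k2 : s * γ * δ ^ 3 / 2 ≤ A * e := by
      calc s * γ * δ ^ 3 / 2 = (s * δ / 2) * (γ * δ ^ 2) := by ring
        _ ≤ A * e := mul_le_mul hA1 he1 (by positivity) hA0
    have k3 : A ^ 2 ≤ s ^ 2 * δ ^ 2 - s * p * δ * w := by
      have k4 : A ^ 2 = s ^ 2 * δ ^ 2 - 2 * (s * p * δ * w) + (p * w) * (p * w) := by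
        rw [hA]; ring
      have k5 : (p * w) * (p * w) ≤ (p * w) * (s * δ) := by
        apply mul_le_mul_of_nonneg_left _ hpw0
        have : 0 < s * δ := by positivity
        linarith
      rw [k4]
      have k6 : (p * w) * (s * δ) = s * p * δ * w := by ring
      linarith
    linarith
  have h2 : ρ ^ 2 ≤ s ^ 2 * δ ^ 2 := by
    have k1 : 0 ≤ s * p * δ * w := by positivity
    have k2 : 0 ≤ s * γ * δ ^ 3 / 2 := by positivity
    linarith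
  have h3 : (1 + δ) * (1 / (1 + ρ)) ≤ 1 + 4 * δ := by
    rw [mul_one_div, div_le_iff₀ hpos]
    have k1 : 1 - δ ≤ 1 + ρ := by rw [hρA]; linarith
    have k2 : (1 + 4 * δ) * (1 - δ) ≤ (1 + 4 * δ) * (1 + ρ) :=
      mul_le_mul_of_nonneg_left k1 (by linarith)
    nlinarith
  have h4 : (1 + δ) * (1 / (1 + ρ)) * ρ ^ 2 ≤ s ^ 2 * δ ^ 2 - s * p * δ * w := by
    have k1 : (1 + δ) * (1 / (1 + ρ)) * ρ ^ 2 ≤ (1 + 4 * δ) * ρ ^ 2 :=
      mul_le_mul_of_nonneg_right h3 (sq_nonneg _)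
    have k2 : 4 * δ * ρ ^ 2 ≤ 4 * δ * (s ^ 2 * δ ^ 2) :=
      mul_le_mul_of_nonneg_left h2 (by positivity)
    have k3 : 4 * δ * (s ^ 2 * δ ^ 2) ≤ s * γ * δ ^ 3 / 2 := by
      have k4 : 4 * δ * (s ^ 2 * δ ^ 2) = (8 * s) * (s * δ ^ 3 / 2) := by ring
      have k5 : s * γ * δ ^ 3 / 2 = γ * (s * δ ^ 3 / 2) := by ring
      rw [k4, k5]
      apply mul_le_mul_of_nonneg_right _ (by positivity)
      linarith
    linarith
  have h5 : (1 + δ) * (1 / (1 + ρ)) + (1 + δ) * (1 + ρ) =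
      2 * (1 + δ) + (1 + δ) * (1 / (1 + ρ)) * ρ ^ 2 := by
    field_simp
    ring
  have h6 : (1 + δ) ^ 2 = 2 * (1 + δ) - 1 + δ ^ 2 := by ring
  linarith

theorem hPOC : StPOC := by
  intro c hc
  have hc2 : 1 < c ^ 2 := by nlinarith
  have h1c : 1 / c ^ 2 < 1 := by
    rw [div_lt_one (by positivity)]
    exact hc2
  have h1c0 : 0 < 1 / c ^ 2 := by positivity
  have hs0 : 0 < ss c := by
    unfold ss
    exact Real.sqrt_pos.2 (by linarith)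
  have hs2 : ss c ^ 2 = 1 - 1 / c ^ 2 := by
    unfold ss
    exact Real.sq_sqrt (by linarith)
  have hs1 : ss c < 1 := by nlinarith
  have hpdef : pp c = (1 - ss c) / (1 + ss c) := rfl
  generalize ss c = s at hs0 hs2 hs1 hpdef
  generalize pp c = p at hpdef
  have hp0 : 0 < p := by rw [hpdef]; exact div_pos (by linarith) (by linarith)
  have hp1 : p < 1 := by rw [hpdef, div_lt_one (by linarith)]; linarith
  obtain ⟨a, ha⟩ : ∃ a : ℝ, a = s / (1 + s) := ⟨_, rfl⟩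
  have ha0 : 0 < a := by rw [ha]; positivity
  have ha1 : a ≤ 1 := by rw [ha, div_le_one (by linarith)]; linarith
  have h2a : p = 1 - 2 * a := by
    rw [hpdef, ha]
    field_simp
    ring
  have hps : p * s = a * (1 - s) := by
    rw [hpdef, ha]
    field_simp
  obtain ⟨γ, hγ⟩ : ∃ γ : ℝ, γ = (200 + s ^ 2) / (2 * s) + 8 := ⟨_, rfl⟩
  have hγ8 : 8 ≤ γ := by
    have : 0 ≤ (200 + s ^ 2) / (2 * s) := by positivity
    linarith
  obtain ⟨β, hβ⟩ : ∃ β : ℝ, β = (200 + 2 * (p + a) * γ) / (2 * s) := ⟨_, rfl⟩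
  have hβ0 : 0 ≤ β := by rw [hβ]; positivity
  obtain ⟨α, hα⟩ : ∃ α : ℝ, α = (200 + p * β) / (2 * s) + (200 + p ^ 2) / (2 * a) := ⟨_, rfl⟩
  have hα0 : 0 ≤ α := by rw [hα]; positivity
  have c4 : 200 + s ^ 2 ≤ 2 * s * γ := by
    have e : 2 * s * γ = 200 + s ^ 2 + 16 * s := by
      rw [hγ]
      field_simp
      ring
    rw [e]
    linarith
  have c3 : 200 + 2 * (p + a) * γ ≤ 2 * s * β := by
    have e : 2 * s * β = 200 + 2 * (p + a) * γ := by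
      rw [hβ]
      field_simp
    rw [e]
  have c2 : 200 + p * β ≤ 2 * s * α := by
    have e : 2 * s * α = 200 + p * β + 2 * s * ((200 + p ^ 2) / (2 * a)) := by
      rw [hα, mul_add]
      congr 1
      field_simp
    rw [e]
    have : 0 ≤ 2 * s * ((200 + p ^ 2) / (2 * a)) := by positivity
    linarith
  have c1 : 200 + p ^ 2 ≤ 2 * a * α := by
    have e : 2 * a * α = 2 * a * ((200 + p * β) / (2 * s)) + (200 + p ^ 2) := by
      rw [hα, mul_add]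
      congr 1
      field_simp
    rw [e]
    have : 0 ≤ 2 * a * ((200 + p * β) / (2 * s)) := by positivity
    linarith
  obtain ⟨G, hG⟩ : ∃ G : ℝ, G = α + β + γ := ⟨_, rfl⟩
  have hG0 : 0 < G := by linarith
  obtain ⟨K, hK⟩ : ∃ K : ℝ, K = 2 * G ^ 2 + 8 * G + 4 := ⟨_, rfl⟩
  have hK4 : 4 ≤ K := by rw [hK]; nlinarith
  have hKG : G ≤ K := by rw [hK]; nlinarith
  refine ⟨α, β, γ, min (1 / (2 * K)) (s / (2 * G)), ⌈2 * K⌉₊, hα0, hβ0, by linarith, ?_, ?_, ?_, ?_⟩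
  · exact lt_min (by positivity) (by positivity)
  · refine (min_le_left _ _).trans ?_
    rw [div_le_one (by linarith)]
    linarith
  · have h1 : (2 * K : ℝ) ≤ (⌈2 * K⌉₊ : ℝ) := Nat.le_ceil _
    have h2 : (2 : ℝ) ≤ (⌈2 * K⌉₊ : ℝ) := by linarith
    exact_mod_cast h2
  intro x δ hx hδ hδle
  have hxK : 2 * K ≤ x := (Nat.le_ceil _).trans hx
  have hx0 : 0 < x := by linarith
  have d1 : δ ≤ 1 / (2 * K) := hδle.trans (min_le_left _ _)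
  have d2 : δ ≤ s / (2 * G) := hδle.trans (min_le_right _ _)
  obtain ⟨w, hw⟩ : ∃ w : ℝ, w = 1 / x := ⟨_, rfl⟩
  have hw0 : 0 < w := by rw [hw]; positivity
  have hwK : w ≤ 1 / (2 * K) := by
    rw [hw]
    exact one_div_le_one_div_of_le (by linarith) hxK
  have htK : K * (w + δ) ≤ 1 := by
    have h1 : w + δ ≤ 1 / K := by
      have : 1 / (2 * K) + 1 / (2 * K) = 1 / K := by
        field_simp
        norm_num
      linarith
    calc K * (w + δ) ≤ K * (1 / K) := mul_le_mul_of_nonneg_left h1 (by linarith)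
      _ = 1 := by field_simp
  have hδG : 2 * G * δ ≤ s := by
    rw [le_div_iff₀ (by positivity)] at d2
    linarith
  have hKt : (2 * G ^ 2 + 8 * G + 4) * (w + δ) ≤ 1 := by rw [← hK]; exact htK
  have ht4 : w + δ ≤ 1 / 4 := by
    have : 4 * (w + δ) ≤ K * (w + δ) := mul_le_mul_of_nonneg_right hK4 (by linarith)
    linarith
  have hδ2 : δ ≤ 1 / 2 := by linarith
  have hrr : rr s p α β γ δ x = 1 + (p * w - s * δ + α * w ^ 2 + β * δ * w + γ * δ ^ 2) := by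
    unfold rr
    rw [hw]
    ring
  have hrr' : rr s p α β γ δ (x + 1) = 1 + (p * (w / (1 + w)) - s * δ + α * (w / (1 + w)) ^ 2 +
      β * δ * (w / (1 + w)) + γ * δ ^ 2) := by
    have e : 1 / (x + 1) = w / (1 + w) := by
      rw [hw]
      field_simp
    have e2 : α / (x + 1) ^ 2 = α * (1 / (x + 1)) ^ 2 := by
      rw [div_pow, one_pow]
      ring
    rw [← e]
    unfold rr
    rw [e2]
    ring
  obtain ⟨ρ, hρ⟩ : ∃ ρ : ℝ, ρ = p * w - s * δ + α * w ^ 2 + β * δ * w + γ * δ ^ 2 := ⟨_, rfl⟩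
  obtain ⟨ρ', hρ'⟩ : ∃ ρ' : ℝ, ρ' = p * (w / (1 + w)) - s * δ + α * (w / (1 + w)) ^ 2 +
      β * δ * (w / (1 + w)) + γ * δ ^ 2 := ⟨_, rfl⟩
  rw [hrr, hrr', ← hρ, ← hρ']
  have hlow : -(s * δ) + γ * δ ^ 2 ≤ ρ := by
    rw [hρ]
    have k1 : 0 ≤ p * w := by positivity
    have k2 : 0 ≤ α * w ^ 2 := by positivity
    have k3 : 0 ≤ β * δ * w := by positivity
    linarith
  have hsδ : s * δ ≤ δ := by nlinarith
  have hγδ : 0 ≤ γ * δ ^ 2 := by positivity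
  have hpos : 0 < 1 + ρ := by linarith
  refine ⟨hpos, ?_, ?_, ?_⟩
  · have h1 : (1 + δ) * (1 + (-(s * δ) + γ * δ ^ 2)) ≤ (1 + δ) * (1 + ρ) := by
      apply mul_le_mul_of_nonneg_left _ (by linarith)
      linarith
    have e : (1 + δ) * (1 + (-(s * δ) + γ * δ ^ 2)) =
        1 + (1 - s) * δ + (γ - s) * δ ^ 2 + γ * δ ^ 3 := by ring
    have h2 : 0 ≤ (γ - s) * δ ^ 2 := mul_nonneg (by linarith) (sq_nonneg _)
    have h3 : 0 ≤ γ * δ ^ 3 := by positivity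
    linarith
  · have h := poc3 (s := s) (p := p) (a := a) (α := α) (β := β) (γ := γ) (G := G) (t := w + δ)
      (w := w) (w' := w / (1 + w)) (δ := δ) (ρ := ρ) (ρ' := ρ') hs0.le hs1.le hp0.le hp1.le
      ha0.le ha1 h2a hps hα0 hβ0 (by linarith) c1 c2 c3 c4 hG rfl hw0 hδ hKt rfl hρ hρ'
    have e1 : δ ^ 2 / c ^ 2 = δ ^ 2 * (1 - s ^ 2) := by
      rw [hs2]
      ring
    have e2 : (1 - p) / x = 2 * a * w := by
      rw [hw, h2a]
      ring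
    have e3 : (1 + δ) / (1 + ρ) = (1 + δ) * (1 / (1 + ρ)) := by ring
    rw [e1, e2, e3]
    exact h
  · intro hxδ
    have hws : 2 * w ≤ s * δ := by
      have e : 2 / (s * x) = 2 * w / s := by
        rw [hw]
        field_simp
      rw [e, div_le_iff₀ hs0] at hxδ
      linarith
    have h := poc4 (s := s) (p := p) (α := α) (β := β) (γ := γ) (G := G) (w := w) (δ := δ)
      (ρ := ρ) hs0 hs1 hp0.le hp1.le hα0 hβ0 hγ8 hG hw0 hδ hδ2 hδG hws hρ hpos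
    have e1 : δ ^ 2 / c ^ 2 = δ ^ 2 * (1 - s ^ 2) := by
      rw [hs2]
      ring
    have e2 : s * p * δ / x = s * p * δ * w := by
      rw [hw]
      ring
    have e3 : (1 + δ) / (1 + ρ) = (1 + δ) * (1 / (1 + ρ)) := by ring
    rw [e1, e2, e3]
    exact h

end Pool.Agent.Helper62.KE
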